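import Pool.Agent.Run7.h439.DC.Inv3

set_option autoImplicit false

/-!
# Divergent trajectories in the classes defined by digits in odd bases

We consider the integers of a given sign whose absolute values lie in a class given by the residues of
strongly additive digit functions (for example sums of digits) in pairwise coprime odd bases. Every union
of merging classes of divergent trajectories has its proportional share in every such class, with a power
saving which is uniform in the union, and Q1 is decided by almost all members of one class. The same holds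
for the divergent trajectories which come close to the origin, with the times and places where they do.
-/

namespace Pool.Agent.Results.MP_ff4775_nt.DigitClassesDivergent

open Filter Topology

/-- The map `T` on the integers. -/
def T (x : ℤ) : ℤ := if x % 2 = 0 then x / 2 else (3 * x + 1) / 2

/-- the trajectory of `n` is divergent -/
def Divergent (n : ℤ) : Prop := Tendsto (fun k : ℕ => |T^[k] n|) atTop atTop

/-- the trajectories of `m` and `n` merge -/
def Merge (m n : ℤ) : Prop := ∃ i j : ℕ, T^[i] m = T^[j] n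

/-- the first term of the trajectory of `x` with absolute value at most `R` is the `k`-th -/
def Enters (R k : ℕ) (x : ℤ) : Prop := |T^[k] x| ≤ (R : ℤ) ∧ ∀ i < k, (R : ℤ) < |T^[i] x|

/-- `W` is strongly `q`-additive: `W(n)` is the sum of the values of `W` at the digits of `n` in base `q`. -/
def StronglyAdditive (q : ℕ) (W : ℕ → ℤ) : Prop := ∀ n r : ℕ, r < q → W (q * n + r) = W n + W r

/-- There is no prime `p ∣ m` such that `W(r) ≡ r W(1)` modulo `p` for all `r ≤ q`. For the sum of the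
digits in base `q` this says that `m` is coprime to `q - 1`. -/
def Unobstructed (q : ℕ) (W : ℕ → ℤ) (m : ℕ) : Prop :=
  ∀ p : ℕ, p.Prime → p ∣ m → ∃ r : ℕ, r ≤ q ∧ ¬ W r ≡ r * W 1 [ZMOD p]

/-- The data: pairwise coprime odd bases `q i ≥ 3`, strongly `q i`-additive functions `W i` with integer
values, and moduli `m i ≥ 1` without obstruction. -/
structure Data {l : ℕ} (q m : Fin l → ℕ) (W : Fin l → ℕ → ℤ) : Prop where
  odd : ∀ i, 3 ≤ q i ∧ q i % 2 = 1
  coprime : ∀ i j, i ≠ j → Nat.Coprime (q i) (q j)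
  additive : ∀ i, StronglyAdditive (q i) (W i)
  pos : ∀ i, 1 ≤ m i
  free : ∀ i, Unobstructed (q i) (W i) (m i)

/-- the class: `W i (n) ≡ a i` modulo `m i` for all `i` -/
def InClass {l : ℕ} (m : Fin l → ℕ) (W : Fin l → ℕ → ℤ) (a : Fin l → ℤ) (n : ℕ) : Prop :=
  ∀ i, W i n ≡ a i [ZMOD m i]

/-- the number of the `1 ≤ n ≤ X` with the property `P` -/
noncomputable def count (P : ℕ → Prop) (X : ℕ) : ℝ := ({n : ℕ | 1 ≤ n ∧ n ≤ X ∧ P n}.ncard : ℝ)

/-- The set of the positive integers with the property `P` has natural density `l`. -/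
def HasDensity (P : ℕ → Prop) (l : ℝ) : Prop := Tendsto (fun X : ℕ => count P X / X) atTop (𝓝 l)

open Pool.Agent.Run7.h439.DC
open Pool.Agent.H319R3.GC (Tm Adm)
open Pool.Agent.Y965.PL (Mn MnS ind ind_pos ind_neg ind_congr ind_nonneg)

theorem T_eq : Tm 2 m3 (r3 1) = T := by rw [Tm3]; rfl

theorem count_ind (P : ℕ → Prop) (X : ℕ) : count P X = ∑ n ∈ Finset.Icc 1 X, ind P n := by
  classical
  unfold count ind
  rw [Finset.sum_boole]
  have e : {n : ℕ | 1 ≤ n ∧ n ≤ X ∧ P n} = ((Finset.Icc 1 X).filter fun n => P n : Finset ℕ) := by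
    ext n
    simp only [Set.mem_ofPred_eq, Finset.coe_filter, Finset.mem_Icc, and_assoc]
  rw [e, Set.ncard_coe_finset]

theorem along_of {P Q : ℕ → Prop} {d : ℝ} (h : Mn (ind Q) d) (hPQ : ∀ n, 1 ≤ n → (P n ↔ Q n)) : HasDensity P d := by
  unfold HasDensity
  unfold Mn at h
  refine h.congr fun X => ?_
  rw [count_ind P X]
  congr 1
  apply Finset.sum_congr rfl
  intro n hn
  exact ind_congr (hPQ _ (Finset.mem_Icc.1 hn).1).symm

theorem dens_unique {P : ℕ → Prop} {a b : ℝ} (h : HasDensity P a) (h' : HasDensity P b) : a = b := tendsto_nhds_unique h h'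

theorem dens_none {P : ℕ → Prop} (h : ∀ n, ¬ P n) : HasDensity P 0 := by
  unfold HasDensity
  refine tendsto_const_nhds.congr fun N => ?_
  have e : {n : ℕ | 1 ≤ n ∧ n ≤ N ∧ P n} = ∅ := by
    rw [Set.eq_empty_iff_forall_notMem]
    rintro n ⟨_, _, hn⟩
    exact h n hn
  unfold count
  rw [e]
  simp

theorem div_step (n : ℤ) : Divergent n ↔ Divergent (T n) := by
  unfold Divergent
  have : (fun k : ℕ => |T^[k] (T n)|) = fun k : ℕ => (fun k : ℕ => |T^[k] n|) (k + 1) := by
    funext k
    simp only [Function.iterate_succ_apply]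
  rw [this, tendsto_add_atTop_iff_nat (f := fun k : ℕ => |T^[k] n|) 1]

theorem div_iter (n : ℤ) (k : ℕ) : Divergent n ↔ Divergent (T^[k] n) := by
  induction k generalizing n with
  | zero => rfl
  | succ k ih => rw [div_step n, ih (T n), Function.iterate_succ_apply]

theorem not_div_zero : ¬ Divergent 0 := by
  intro h
  have h0 : ∀ k : ℕ, T^[k] 0 = 0 := by
    intro k
    induction k with
    | zero => rfl
    | succ k ih => rw [Function.iterate_succ_apply, show T 0 = 0 from rfl, ih]
  unfold Divergent at h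
  simp only [h0, abs_zero] at h
  obtain ⟨k, hk⟩ := (h.eventually_ge_atTop 1).exists
  omega

theorem enters_unique {R k k' : ℕ} {x : ℤ} (h : Enters R k x) (h' : Enters R k' x) : k = k' := by
  rcases lt_trichotomy k k' with g | g | g
  · exact absurd (h'.2 k g) (not_lt.2 h.1)
  · exact g
  · exact absurd (h.2 k' g) (not_lt.2 h'.1)

theorem enters_fe {R k : ℕ} {x : ℤ} : FE T (fun y => |y| ≤ (R : ℤ)) k x ↔ Enters R k x := by
  unfold FE Enters
  simp only [not_le]

/-- DIVERGENT TRAJECTORIES IN DIGIT CLASSES.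

(1) (Uniform transfer.) For all data `q, m, W` there are `K` and `c > 0` such that for both signs `s`, every
set `S` of integers with divergent trajectories which contains with an integer all those whose trajectories
merge with its trajectory, all classes `a` and all `X ≥ 1` the number of the `n ≤ X` in the class with
`s n ∈ S` is `∏ 1 / m i` times the number of all such `n ≤ X`, up to `K X ^ (1 - c)`.

(2) For all data and all `R` there are `K` and `c > 0` such that for both signs `s`, all sets `B` of pairs of a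
time and an integer, all classes and all `X ≥ 1` the same holds for the `n ≤ X` for which the trajectory of
`s n` is divergent and first enters `[-R, R]` at a time `k` in a point `x` with `(k, x) ∈ B`.

(3) If `n₀` has a divergent trajectory and the sign of `s`, the `n` for which the trajectory of `s n` merges
with that of `n₀` have a natural density `δ > 0`, and those in any given class have natural density
`(∏ 1 / m i) * δ`.

(4) No integer has a divergent trajectory if and only if there are data and a class such that for both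
signs `s` the `n` in the class for which the trajectory of `s n` is divergent have natural density `0`. -/
theorem result :
    (∀ (l : ℕ) (q m : Fin l → ℕ) (W : Fin l → ℕ → ℤ), Data q m W → ∃ K c : ℝ, 0 < c ∧
      ∀ s : ℤ, s = 1 ∨ s = -1 → ∀ S : Set ℤ, (∀ x ∈ S, Divergent x) → (∀ x ∈ S, ∀ y : ℤ, Merge y x → y ∈ S) →
      ∀ (a : Fin l → ℤ) (X : ℕ), 1 ≤ X →
        |count (fun n => InClass m W a n ∧ s * (n : ℤ) ∈ S) X -
          (∏ i, 1 / (m i : ℝ)) * count (fun n => s * (n : ℤ) ∈ S) X| ≤ K * (X : ℝ) ^ (1 - c)) ∧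
    (∀ (l : ℕ) (q m : Fin l → ℕ) (W : Fin l → ℕ → ℤ), Data q m W → ∀ R : ℕ, ∃ K c : ℝ, 0 < c ∧
      ∀ s : ℤ, s = 1 ∨ s = -1 → ∀ B : Set (ℕ × ℤ), ∀ (a : Fin l → ℤ) (X : ℕ), 1 ≤ X →
        |count (fun n => InClass m W a n ∧ Divergent (s * n) ∧ ∃ k, Enters R k (s * n) ∧ (k, T^[k] (s * n)) ∈ B) X -
          (∏ i, 1 / (m i : ℝ)) * count (fun n => Divergent (s * n) ∧ ∃ k, Enters R k (s * n) ∧ (k, T^[k] (s * n)) ∈ B) X|
          ≤ K * (X : ℝ) ^ (1 - c)) ∧
    (∀ s : ℤ, s = 1 ∨ s = -1 → ∀ n₀ : ℤ, 0 < s * n₀ → Divergent n₀ → ∃ δ : ℝ, 0 < δ ∧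
      HasDensity (fun n => Merge (s * n) n₀) δ ∧
      ∀ (l : ℕ) (q m : Fin l → ℕ) (W : Fin l → ℕ → ℤ), Data q m W → ∀ a : Fin l → ℤ,
        HasDensity (fun n => InClass m W a n ∧ Merge (s * n) n₀) ((∏ i, 1 / (m i : ℝ)) * δ)) ∧
    ((∀ n : ℤ, ¬ Divergent n) ↔
      ∃ (l : ℕ) (q m : Fin l → ℕ) (W : Fin l → ℕ → ℤ) (a : Fin l → ℤ), Data q m W ∧
        ∀ s : ℤ, s = 1 ∨ s = -1 → HasDensity (fun n => InClass m W a n ∧ Divergent (s * n)) 0) := by
  classical
  have hDD : ∀ {l : ℕ} {q m : Fin l → ℕ} {W : Fin l → ℕ → ℤ}, Data q m W → DD 2 q m W := by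
    intro l q m W hD
    refine ⟨fun i => (hD.odd i).1, fun i => ?_, hD.coprime, hD.additive, hD.pos, hD.free⟩
    rw [Nat.coprime_two_left]
    exact Nat.odd_iff.2 (hD.odd i).2
  have hcl : ∀ {l : ℕ} {m : Fin l → ℕ} {W : Fin l → ℕ → ℤ} {a : Fin l → ℤ} (n : ℕ), InClass m W a n ↔ Ed m W a n :=
    fun n => Ed_iff
  have hcnt : ∀ {l : ℕ} {m : Fin l → ℕ} {W : Fin l → ℕ → ℤ} {a : Fin l → ℤ} (P : ℕ → Prop) (X : ℕ),
      count (fun n => InClass m W a n ∧ P n) X = ∑ n ∈ Finset.Icc 1 X, ind (Ed m W a) n * ind P n := by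
    intro l m W a P X
    rw [count_ind]
    apply Finset.sum_congr rfl
    intro n _
    rw [← ind_and]
    exact ind_congr (and_congr (hcl n) Iff.rfl)
  have hmain : ∀ s : ℤ, s = 1 ∨ s = -1 → ∀ S : Set ℤ, (∀ x, x ∈ S ↔ T x ∈ S) → ∃ δ : ℝ,
      ((∃ x ∈ S, 0 < s * x) → 0 < δ) ∧
      HasDensity (fun n => s * (n : ℤ) ∈ S) δ ∧
      ∀ (l : ℕ) (q m : Fin l → ℕ) (W : Fin l → ℕ → ℤ), Data q m W → ∀ a : Fin l → ℤ,
        HasDensity (fun n => InClass m W a n ∧ s * (n : ℤ) ∈ S) ((∏ i, 1 / (m i : ℝ)) * δ) := by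
    intro s hs S hS
    obtain ⟨δ, _, _, hδ⟩ := Pool.Agent.H499R2.ND.dens_side odd_one isCoprime_one_left hs (S := S) hS
    have hM := mn_side hs hδ
    refine ⟨δ, ?_, along_of hM fun _ _ => Iff.rfl, fun l q m W hD a => ?_⟩
    · rintro ⟨x, hxS, hx⟩
      exact Pool.Agent.H499R2.ND.one_pos hs (S := S) hS hxS hx hδ
    obtain ⟨C, c, hC, hc0, _, hT⟩ := inv_ct (adm3 (k := 1) odd_one) (hDD hD)
    obtain ⟨hρ0, hρ1⟩ := rho01 hD.pos
    have h1 := inv_ct_set (s := s) (fun f hb hf => hT s hs f hb hf a) (S := S) (fun x => by rw [T_eq]; exact hS x)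
    exact along_of (cls_set hρ0.le hρ1 hc0 h1 hM) fun n _ => and_congr (hcl n) Iff.rfl
  refine ⟨fun l q m W hD => ?_, fun l q m W hD R => ?_, fun s hs n₀ hn₀ hdiv => ?_, fun h => ?_, ?_⟩
  · obtain ⟨C, c, hC, hc0, _, hT⟩ := inv_ct (adm3 (k := 1) odd_one) (hDD hD)
    refine ⟨C, c, hc0, fun s hs S hSd hSm a X hX => ?_⟩
    have hS : ∀ x, x ∈ S ↔ T x ∈ S := by
      intro x
      constructor
      · intro hx; exact hSm x hx (T x) ⟨0, 1, rfl⟩
      · intro hx; exact hSm (T x) hx x ⟨1, 0, rfl⟩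
    have h1 := inv_ct_set (s := s) (fun f hb hf => hT s hs f hb hf a) (S := S) (fun x => by rw [T_eq]; exact hS x)
    have h2 := h1.tr X hX
    rw [hcnt, count_ind]
    exact h2
  · obtain ⟨k0, hk0⟩ := ksync_fe (adm3 (k := 1) odd_one) R
    obtain ⟨C, c, hC, hc0, H⟩ := ct_digits (adm3 (k := 1) odd_one) 2 k0 q (hDD hD).three (hDD hD).copd (hDD hD).cop W
      (hDD hD).add m (hDD hD).pos (fun i => obs_one ((hDD hD).free i))
    refine ⟨C, c, hc0, fun s hs B a X hX => ?_⟩
    set P : ℕ → Prop := fun n => Divergent (s * n) ∧ ∃ k, Enters R k (s * n) ∧ (k, T^[k] (s * n)) ∈ B with hP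
    have hEF : EF 2 m3 (r3 1) s (fun y => |y| ≤ (R : ℤ)) (ind P) := by
      refine ⟨fun n => by unfold ind; split_ifs <;> simp, fun k n n' h1 h2 _ h4 => ?_, fun n n' h1 h2 => ?_⟩
      · rw [T_eq, enters_fe] at h1 h2
        rw [T_eq] at h4
        apply ind_congr
        have e1 : Divergent (s * n) ↔ Divergent (s * n') := by rw [div_iter (s * n) k, div_iter (s * n') k, h4]
        rw [hP]
        dsimp only
        rw [e1]
        apply and_congr_right
        intro _
        constructor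
        · rintro ⟨j, hj, hB⟩
          have := enters_unique hj h1
          subst this
          exact ⟨j, h2, by rw [← h4]; exact hB⟩
        · rintro ⟨j, hj, hB⟩
          have := enters_unique hj h2
          subst this
          exact ⟨j, h1, by rw [h4]; exact hB⟩
      · rw [T_eq] at h1 h2
        rw [ind_neg (P := P), ind_neg (P := P)]
        · rintro ⟨_, j, hj, _⟩; exact h2 j (enters_fe.2 hj)
        · rintro ⟨_, j, hj, _⟩; exact h1 j (enters_fe.2 hj)
    have h2 := (H s hs _ (hk0 s hs _ (fun x hx => hx) _ hEF) a).tr X hX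
    rw [hcnt P, count_ind]
    exact h2
  · obtain ⟨δ, hpos, h1, h2⟩ := hmain s hs {x | Merge x n₀} (fun x => Pool.Agent.H499R2.ND.Mg_inv 1 n₀ x)
    exact ⟨δ, hpos ⟨n₀, ⟨0, 0, rfl⟩, hn₀⟩, h1, h2⟩
  · exact ⟨0, fun i => i.elim0, fun i => i.elim0, fun i => i.elim0, fun i => i.elim0,
      ⟨fun i => i.elim0, fun i => i.elim0, fun i => i.elim0, fun i => i.elim0, fun i => i.elim0⟩,
      fun s hs => dens_none fun n hn => h _ hn.2⟩
  · rintro ⟨l, q, m, W, a, hD, h⟩ n hn
    have hn0 : n ≠ 0 := by rintro rfl; exact not_div_zero hn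
    obtain ⟨s, hs, hsb⟩ : ∃ s : ℤ, (s = 1 ∨ s = -1) ∧ 0 < s * n := by
      rcases lt_or_gt_of_ne hn0 with g | g
      · exact ⟨-1, Or.inr rfl, by omega⟩
      · exact ⟨1, Or.inl rfl, by omega⟩
    obtain ⟨δ, hpos, _, h2⟩ := hmain s hs {x | Divergent x} (fun x => div_step x)
    have h3 := dens_unique (h2 l q m W hD a) (h s hs)
    have h4 := hpos ⟨n, hn, hsb⟩
    obtain ⟨hρ0, _⟩ := rho01 hD.pos
    have : 0 < (∏ i, 1 / (m i : ℝ)) * δ := mul_pos hρ0 h4
    linarith

end Pool.Agent.Results.MP_ff4775_nt.DigitClassesDivergent
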