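import Pool.Agent.Run7.h792.FL.Inv

set_option autoImplicit false

/-!
# Divergent trajectories and functions modulo large odd numbers

Fix `0 < ε < 1`. At the scale `N`, every union of merging classes of divergent trajectories is independent,
with a power saving which is uniform in the union, of every function of `n` modulo an odd `q` between `N ^ ε`
and `N ^ (1 - ε)` whose Fourier coefficients at the nonzero frequencies are at most `q ^ (1 / 2 + η)`. So the
union has its proportional share in every set of residues of this kind, for example in the quadratic residues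
modulo a prime between `N ^ ε` and `N ^ (1 - ε)`, and Q1 is decided by such sets at infinitely many scales.

Method: the dispersion argument of `Pool.Agent.Run7.h439.DC.Orth` at a level which is a small proportion of
`log q`; the correlations of the function along the progressions modulo the powers of two are, up to `O(q)`,
autocorrelations over whole periods, and the sum of the squares of the latter is bounded by Parseval.
-/

namespace Pool.Agent.Results.MP_ff4775_nt.FlatResidues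

open Filter Topology

/-- The map `T` on the integers. -/
def T (x : ℤ) : ℤ := if x % 2 = 0 then x / 2 else (3 * x + 1) / 2

/-- the trajectory of `n` is divergent -/
def Divergent (n : ℤ) : Prop := Tendsto (fun k : ℕ => |T^[k] n|) atTop atTop

/-- the trajectories of `m` and `n` merge -/
def Merge (m n : ℤ) : Prop := ∃ i j : ℕ, T^[i] m = T^[j] n

/-- `f` has period `q`, values of modulus at most `1`, and its Fourier coefficients at the nonzero
frequencies have modulus at most `q ^ (1 / 2 + η)`. -/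
structure Flat (q : ℕ) (η : ℝ) (f : ℕ → ℂ) : Prop where
  bounded : ∀ n, ‖f n‖ ≤ 1
  periodic : ∀ n, f (n + q) = f n
  fourier : ∀ h : ℕ, 0 < h → h < q →
    ‖∑ a ∈ Finset.range q, f a * Complex.exp (2 * Real.pi * Complex.I * (h * a) / q)‖ ≤ (q : ℝ) ^ (1 / 2 + η)

/-- the mean value of a function with period `q` -/
noncomputable def mean (q : ℕ) (f : ℕ → ℂ) : ℂ := (∑ a ∈ Finset.range q, f a) / q

/-- `A` is a subset of `{0, ..., q - 1}`, and the indicator function of the integers which are congruent to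
an element of `A` modulo `q` is `Flat`. -/
def FlatSet (q : ℕ) (η : ℝ) (A : Finset ℕ) : Prop :=
  A ⊆ Finset.range q ∧ Flat q η (fun n => if n % q ∈ A then 1 else 0)

/-- `q` is odd and `N ^ ε ≤ q ≤ N ^ (1 - ε)`. -/
def InRange (ε : ℝ) (N q : ℕ) : Prop := Odd q ∧ (N : ℝ) ^ ε ≤ q ∧ (q : ℝ) ≤ (N : ℝ) ^ (1 - ε)

/-- the number of the `1 ≤ n ≤ X` with the property `P` -/
noncomputable def count (P : ℕ → Prop) (X : ℕ) : ℝ := ({n : ℕ | 1 ≤ n ∧ n ≤ X ∧ P n}.ncard : ℝ)

/-- The set of the positive integers with the property `P` has natural density `l`. -/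
def HasDensity (P : ℕ → Prop) (l : ℝ) : Prop := Tendsto (fun X : ℕ => count P X / X) atTop (𝓝 l)

open Pool.Agent.Run7.h792.FL
open Pool.Agent.Run7.h439.DC (adm3 Tm3 m3 r3 mn_side ind_and)
open Pool.Agent.H319R3.GC (Tm Adm)
open Pool.Agent.Y965.PL (Mn MnS ind ind_pos ind_neg ind_congr ind_nonneg)

theorem T_eq : Tm 2 m3 (r3 1) = T := by rw [Tm3]; rfl

theorem count_ind (P : ℕ → Prop) (X : ℕ) : count P X = ∑ n ∈ Finset.Icc 1 X, ind P n := by
  classical
  unfold count ind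
  rw [Finset.sum_boole]
  have e : {n : ℕ | 1 ≤ n ∧ n ≤ X ∧ P n} = ((Finset.Icc 1 X).filter fun n => P n : Finset ℕ) := by
    ext n
    simp only [Set.mem_ofPred_eq, Finset.coe_filter, Finset.mem_Icc, and_assoc]
  rw [e, Set.ncard_coe_finset]

theorem along_of {P Q : ℕ → Prop} {d : ℝ} (h : Mn (ind Q) d) (hPQ : ∀ n, 1 ≤ n → (P n ↔ Q n)) : HasDensity P d := by
  unfold HasDensity
  unfold Mn at h
  refine h.congr fun X => ?_
  rw [count_ind P X]
  congr 1
  apply Finset.sum_congr rfl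
  intro n hn
  exact ind_congr (hPQ _ (Finset.mem_Icc.1 hn).1).symm

theorem div_step (n : ℤ) : Divergent n ↔ Divergent (T n) := by
  unfold Divergent
  have : (fun k : ℕ => |T^[k] (T n)|) = fun k : ℕ => (fun k : ℕ => |T^[k] n|) (k + 1) := by
    funext k
    simp only [Function.iterate_succ_apply]
  rw [this, tendsto_add_atTop_iff_nat (f := fun k : ℕ => |T^[k] n|) 1]

theorem not_div_zero : ¬ Divergent 0 := by
  intro h
  have h0 : ∀ k : ℕ, T^[k] 0 = 0 := by
    intro k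
    induction k with
    | zero => rfl
    | succ k ih => rw [Function.iterate_succ_apply, show T 0 = 0 from rfl, ih]
  unfold Divergent at h
  simp only [h0, abs_zero] at h
  obtain ⟨k, hk⟩ := (h.eventually_ge_atTop 1).exists
  omega

/-- DIVERGENT TRAJECTORIES AND FUNCTIONS MODULO LARGE ODD NUMBERS. For every `0 < ε < 1` there are `η`, `c`,
`K > 0` with the following properties; `N ≥ 1`, and `q` is odd with `N ^ ε ≤ q ≤ N ^ (1 - ε)`.

(1) (Uniform transfer.) For every `f` with period `q` and modulus at most `1` whose Fourier coefficients at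
the nonzero frequencies are at most `q ^ (1 / 2 + η)`, both signs `s`, every set `S` of integers with divergent
trajectories which contains with an integer all those whose trajectories merge with its trajectory, and all
`X ≤ N` the sum of `f(n)` minus the mean value of `f` over the `n ≤ X` with `s n ∈ S` has modulus at most
`K N ^ (1 - c)`.

(2) If `n₀` has a divergent trajectory and the sign of `s`, the `n` for which the trajectory of `s n` merges
with that of `n₀` have a natural density `δ > 0`, and for `0 ≤ v < c`, `τ > 0`, all large `N`, all `q` and all flat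
sets `A` of residues modulo `q` with `|A| ≥ q N ^ (-v)` the number of those `n ≤ N` which lie in the classes of
`A` is `δ |A| / q * N` up to `τ |A| / q * N`.

(3) Let `0 ≤ v < c`. If for both signs `s` there are for infinitely many `N` a number `q` and a flat `A` with
`|A| ≥ q N ^ (-v)` such that at most `o(|A| / q * N)` of the `n ≤ N` in the classes of `A` are such that the
trajectory of `s n` is divergent, then no integer has a divergent trajectory.

(4) (Examples.) The hypothesis on `f` holds for the primitive Dirichlet characters modulo `q`, for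
`exp (2 π i (a n ^ 2 + b n) / q)` with `a` coprime to `q`, and the hypothesis on `A` holds if `q = p` is prime and `A`
is invariant under multiplication by the `k`-th powers coprime to `p`, where `k + 1 ≤ p ^ (2 η)`. -/
theorem result : ∀ ε : ℝ, 0 < ε → ε < 1 → ∃ η c K : ℝ, 0 < η ∧ 0 < c ∧ c < 1 ∧ 0 < K ∧
    (∀ N q : ℕ, 1 ≤ N → InRange ε N q → ∀ f : ℕ → ℂ, Flat q η f → ∀ s : ℤ, s = 1 ∨ s = -1 →
      ∀ S : Set ℤ, (∀ x ∈ S, Divergent x) → (∀ x ∈ S, ∀ y : ℤ, Merge y x → y ∈ S) → ∀ X : ℕ, X ≤ N →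
      ‖∑ᶠ n ∈ {n : ℕ | 1 ≤ n ∧ n ≤ X ∧ s * (n : ℤ) ∈ S}, (f n - mean q f)‖ ≤ K * (N : ℝ) ^ (1 - c)) ∧
    (∀ s : ℤ, s = 1 ∨ s = -1 → ∀ n₀ : ℤ, 0 < s * n₀ → Divergent n₀ → ∃ δ : ℝ, 0 < δ ∧
      HasDensity (fun n => Merge (s * n) n₀) δ ∧
      ∀ v : ℝ, 0 ≤ v → v < c → ∀ τ : ℝ, 0 < τ → ∃ N₀ : ℕ, ∀ N : ℕ, N₀ ≤ N → ∀ q : ℕ, InRange ε N q →
      ∀ A : Finset ℕ, FlatSet q η A → (q : ℝ) * (N : ℝ) ^ (-v) ≤ A.card →
      |count (fun n => n % q ∈ A ∧ Merge (s * n) n₀) N - δ * (A.card / q * N)| ≤ τ * (A.card / q * N)) ∧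
    (∀ v : ℝ, 0 ≤ v → v < c → ∀ ψ : ℕ → ℝ, Tendsto ψ atTop (𝓝 0) →
      (∀ s : ℤ, s = 1 ∨ s = -1 → ∃ᶠ N : ℕ in atTop, ∃ q : ℕ, InRange ε N q ∧ ∃ A : Finset ℕ, FlatSet q η A ∧
        (q : ℝ) * (N : ℝ) ^ (-v) ≤ A.card ∧
        count (fun n => n % q ∈ A ∧ Divergent (s * n)) N ≤ ψ N * (A.card / q * N)) →
      ∀ n : ℤ, ¬ Divergent n) ∧
    (∀ (q : ℕ) (χ : DirichletCharacter ℂ q), 1 ≤ q → χ.IsPrimitive → Flat q η (fun n => χ n)) ∧
    (∀ (q : ℕ) (a b : ℤ), Odd q → IsCoprime a q →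
      Flat q η (fun n => Complex.exp (2 * Real.pi * Complex.I * (a * n ^ 2 + b * n) / q))) ∧
    (∀ p k : ℕ, p.Prime → 1 ≤ k → (k : ℝ) + 1 ≤ (p : ℝ) ^ (2 * η) → ∀ A : Finset ℕ, A ⊆ Finset.range p →
      (∀ b : ℕ, Nat.Coprime b p → ∀ a ∈ A, b ^ k * a % p ∈ A) → FlatSet p η A) := by
  classical
  intro ε hε hε1
  obtain ⟨η, c, K, hη, hc0, hc1, hK, S₀⟩ := scaleF (adm3 (k := 1) odd_one) 1 0 0 hε hε1
  have hFl : ∀ {q : ℕ} {f : ℕ → ℂ}, Flat q η f → FlatP q η f := fun h => ⟨h.1, h.2, h.3⟩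
  have hlF : ∀ {q : ℕ} {f : ℕ → ℂ}, FlatP q η f → Flat q η f := fun h => ⟨h.1, h.2, h.3⟩
  have hFs : ∀ {q : ℕ} {A : Finset ℕ}, FlatSet q η A → FlatI q η A := fun h => ⟨h.1, hFl h.2⟩
  have hrho : ∀ {N q : ℕ} {A : Finset ℕ} {v : ℝ}, Odd q → (q : ℝ) * (N : ℝ) ^ (-v) ≤ A.card → (N : ℝ) ^ (-v) ≤ (A.card / q : ℝ) := by
    intro N q A v hq h
    have hq0 : 0 < q := hq.pos
    have hqr : (0 : ℝ) < q := by exact_mod_cast hq0
    rw [le_div_iff₀ hqr]
    linarith
  have hcnt : ∀ (E P : ℕ → Prop) (X : ℕ), count (fun n => E n ∧ P n) X = ∑ n ∈ Finset.Icc 1 X, ind E n * ind P n := by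
    intro E P X
    rw [count_ind]
    apply Finset.sum_congr rfl
    intro n _
    exact ind_and _ _ n
  have hks : ∀ (s : ℤ) (S : Set ℤ), (∀ x, x ∈ S ↔ T x ∈ S) →
      Pool.Agent.Run7.h439.DC.KSync 2 m3 (r3 1) s 1 0 (ind (fun n => s * (n : ℤ) ∈ S)) := by
    intro s S hS
    exact ksync_set (fun x => by rw [T_eq]; exact hS x)
  have hmain : ∀ s : ℤ, s = 1 ∨ s = -1 → ∀ S : Set ℤ, (∀ x, x ∈ S ↔ T x ∈ S) → ∃ δ : ℝ,
      ((∃ x ∈ S, 0 < s * x) → 0 < δ) ∧
      HasDensity (fun n => s * (n : ℤ) ∈ S) δ ∧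
      ∀ v : ℝ, 0 ≤ v → v < c → ∀ τ : ℝ, 0 < τ → ∃ N₀ : ℕ, 1 ≤ N₀ ∧ ∀ N : ℕ, N₀ ≤ N → ∀ q : ℕ, InRange ε N q →
      ∀ A : Finset ℕ, FlatSet q η A → (q : ℝ) * (N : ℝ) ^ (-v) ≤ A.card →
      |count (fun n => n % q ∈ A ∧ s * (n : ℤ) ∈ S) N - δ * (A.card / q * N)| ≤ τ * (A.card / q * N) := by
    intro s hs S hS
    obtain ⟨δ, _, _, hδ⟩ := Pool.Agent.H499R2.ND.dens_side odd_one isCoprime_one_left hs (S := S) hS
    have hM := mn_side hs hδ
    refine ⟨δ, ?_, along_of hM fun _ _ => Iff.rfl, fun v hv0 hv τ hτ => ?_⟩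
    · rintro ⟨x, hxS, hx⟩
      exact Pool.Agent.H499R2.ND.one_pos hs (S := S) hS hxS hx hδ
    obtain ⟨N₀, hN₀⟩ := (dens hM (C := K) hv hτ).exists_forall_of_atTop
    refine ⟨max N₀ 1, le_max_right _ _, fun N hN q hq A hA hcard => ?_⟩
    have h5 := hN₀ N ((le_max_left _ _).trans hN) (fun n => n % q ∈ A) (A.card / q) (hrho hq.1 hcard)
      (S₀.set1 hs ((le_max_right _ _).trans hN) hq.1.pos (Nat.coprime_two_left.2 hq.1) hq.2.1 hq.2.2 (hFs hA) (hks s S hS))
    rw [hcnt]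
    exact h5
  refine ⟨η, c, K + 1, hη, hc0, hc1, by linarith, ?_, ?_, ?_, ?_, ?_, ?_⟩
  · intro N q hN hq f hf s hs S _ hSm X hX
    have hS : ∀ x, x ∈ S ↔ T x ∈ S := by
      intro x
      constructor
      · intro hx; exact hSm x hx (T x) ⟨0, 1, rfl⟩
      · intro hx; exact hSm (T x) hx x ⟨1, 0, rfl⟩
    have h4 := S₀.fun1 hs hN hq.1.pos (Nat.coprime_two_left.2 hq.1) hq.2.1 hq.2.2 (hFl hf) (hks s S hS) hX
    have e : ∑ᶠ n ∈ {n : ℕ | 1 ≤ n ∧ n ≤ X ∧ s * (n : ℤ) ∈ S}, (f n - mean q f) =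
        ∑ n ∈ Finset.Icc 1 X, ((ind (fun n : ℕ => s * (n : ℤ) ∈ S) n : ℝ) : ℂ) * (f n - meanP q f) := by
      rw [finsum_mem_eq_finite_toFinset_sum _ ((Set.finite_Iic X).subset fun n hn => hn.2.1)]
      have e : ((Set.finite_Iic X).subset fun n (hn : n ∈ {n : ℕ | 1 ≤ n ∧ n ≤ X ∧ s * (n : ℤ) ∈ S}) => hn.2.1).toFinset
          = (Finset.Icc 1 X).filter (fun n : ℕ => s * (n : ℤ) ∈ S) := by
        ext n
        simp only [Set.Finite.mem_toFinset, Set.mem_ofPred_eq, Finset.mem_filter, Finset.mem_Icc, and_assoc]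
      rw [e, Finset.sum_filter]
      apply Finset.sum_congr rfl
      intro n _
      by_cases h : s * (n : ℤ) ∈ S
      · rw [if_pos h, ind_pos (P := fun n : ℕ => s * (n : ℤ) ∈ S) h, Complex.ofReal_one, one_mul]; rfl
      · rw [if_neg h, ind_neg (P := fun n : ℕ => s * (n : ℤ) ∈ S) h, Complex.ofReal_zero, zero_mul]
    rw [e]
    refine h4.trans ?_
    have : 0 ≤ (N : ℝ) ^ (1 - c) := by positivity
    nlinarith
  · intro s hs n₀ hn₀ _
    obtain ⟨δ, hpos, h1, h2⟩ := hmain s hs {x | Merge x n₀} (fun x => Pool.Agent.H499R2.ND.Mg_inv 1 n₀ x)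
    refine ⟨δ, hpos ⟨n₀, ⟨0, 0, rfl⟩, hn₀⟩, h1, fun v hv0 hv τ hτ => ?_⟩
    obtain ⟨N₀, _, h3⟩ := h2 v hv0 hv τ hτ
    exact ⟨N₀, h3⟩
  · intro v hv0 hv ψ hψ hfr n hn
    have hn0 : n ≠ 0 := by rintro rfl; exact not_div_zero hn
    obtain ⟨s, hs, hsb⟩ : ∃ s : ℤ, (s = 1 ∨ s = -1) ∧ 0 < s * n := by
      rcases lt_or_gt_of_ne hn0 with g | g
      · exact ⟨-1, Or.inr rfl, by omega⟩
      · exact ⟨1, Or.inl rfl, by omega⟩
    obtain ⟨δ, hpos, _, h2⟩ := hmain s hs {x | Divergent x} (fun x => div_step x)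
    have hδ := hpos ⟨n, hn, hsb⟩
    obtain ⟨N₀, hN₀1, hN₀⟩ := h2 v hv0 hv (δ / 2) (by positivity)
    have hψ' := hψ.eventually (gt_mem_nhds (show (0 : ℝ) < δ / 4 by positivity))
    obtain ⟨N, ⟨q, hq, A, hA, hcard, hfew⟩, hN, hψN⟩ :=
      ((hfr s hs).and_eventually ((eventually_ge_atTop N₀).and hψ')).exists
    have h5 := hN₀ N hN q hq A hA hcard
    have hN1 : (1 : ℝ) ≤ N := by exact_mod_cast hN₀1.trans hN
    have hρ := hrho (v := v) hq.1 hcard
    have hρ0 : 0 < (A.card / q : ℝ) := lt_of_lt_of_le (by positivity) hρ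
    have h6 : 0 < (A.card / q : ℝ) * N := by positivity
    have h7 := (abs_le.1 h5).1
    have h8 : count (fun n => n % q ∈ A ∧ s * (n : ℤ) ∈ {x | Divergent x}) N =
        count (fun n => n % q ∈ A ∧ Divergent (s * n)) N := rfl
    rw [h8] at h7
    nlinarith
  · intro q χ hq hχ
    exact hlF (flatP_char hq hη.le hχ)
  · intro q a b hq hab
    exact hlF (flatP_quad hη.le hq hab b)
  · intro p k hp hk hkp A hA h
    have h5 := flatI_pow hp hk hkp hA h
    exact ⟨h5.1, hlF h5.2⟩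

end Pool.Agent.Results.MP_ff4775_nt.FlatResidues
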