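import Mathlib
import Pool.Agent.Run7.h263.ID.D1
import Pool.Agent.H499R2.NDCor

set_option autoImplicit false

/-!
# Isolated divergent trajectories

Call a member `n` of a set `S` of integers isolated if it is odd and no even integer near it is in `S`,
where near means at a distance of at most `exp ((log |n|) ^ θ)`, `θ < 1/2`. If an integer of sign `s`
has a divergent trajectory, then there are many isolated integers of this sign with a divergent
trajectory, also within each class of merging divergent trajectories, and many isolated integers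
without a divergent trajectory. So there is no divergent trajectory if and only if the following local
rule has only finitely many exceptions: an odd integer `n` does not have a divergent trajectory if the
even integers near `n` do not have one. For negative integers the result on classes of merging
trajectories is unconditional.

Method. Long runs of consecutive integers of either sign merge almost always (starting files `W38/CR`;
here the version of `Run7/h263/ID/Fwd` with `d = 1` is used), hence a positive proportion of the integers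
`z` lie in long intervals without elements of `S`. The interval `[2 ^ j z, 2 ^ j (z + 1)]` contains
`δ 2 ^ j` elements of `S` for large `j`, where `δ > 0` is the density of `S`. Follow one of them
downwards: halve it, if it is even, and otherwise pass to an even element nearby, and halve that. As
the interval at the bottom contains no element of `S`, one meets an isolated element.
-/

namespace Pool.Agent.Results.MP_ff4775_nt.IsolatedTrajectories

open Filter

/-- The `3x+1` map on the integers. -/
def T (n : ℤ) : ℤ := if n % 2 = 0 then n / 2 else (3 * n + 1) / 2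

/-- The trajectory of `n` is divergent. -/
def Divergent (n : ℤ) : Prop := Tendsto (fun k : ℕ => |T^[k] n|) atTop atTop

/-- The trajectories of `m` and `n` merge. -/
def Merge (m n : ℤ) : Prop := ∃ i j : ℕ, T^[i] m = T^[j] n

/-- The odd elements `n` of `S` such that no even integer at a distance of at most `w |n|` from `n` is
in `S`. -/
def Isolated (w : ℕ → ℝ) (S : Set ℤ) : Set ℤ :=
  {n | n % 2 = 1 ∧ n ∈ S ∧ ∀ m : ℤ, m % 2 = 0 → |(m : ℝ) - n| ≤ w n.natAbs → m ∉ S}

/-- The integers of sign `s`. -/
def Side (s : ℤ) : Set ℤ := {n | 0 < s * n}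

/-- The distance `exp ((log n) ^ θ)`. -/
noncomputable def radius (θ : ℝ) (n : ℕ) : ℝ := Real.exp (Real.log n ^ θ)

/-- The conclusions on the isolated members of `S` of sign `s`. -/
def ManyIsolated (s : ℤ) (S : Set ℤ) : Prop :=
  (∀ M : ℝ, 0 ≤ M → ¬ Summable fun n : ↥(Isolated (fun _ => M) S ∩ Side s) =>
    1 / ((n : ℤ).natAbs : ℝ)) ∧
  ∀ θ : ℝ, 0 < θ → θ < 1 / 2 → (Isolated (radius θ) S ∩ Side s).Infinite ∧
    ¬ Summable fun n : ↥(Isolated (radius θ) S ∩ Side s) =>
      radius θ (n : ℤ).natAbs / ((n : ℤ).natAbs : ℝ)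

/-! ### proofs -/

open Pool.Agent.H499R2.CO (Tz)

open Pool.Agent.H499R2.ND (Td Mg Mg_inv Mg_self Mg_trans Mg_symm Mg_step)

open Pool.Agent.Run7.h263.ID

theorem T_eq : T = Tz 1 := rfl

theorem T_eq' : T = Td 1 := rfl

theorem div_step (n : ℤ) : Divergent n ↔ Divergent (T n) := by
  unfold Divergent
  have : (fun k : ℕ => |T^[k] (T n)|) = fun k : ℕ => (fun k : ℕ => |T^[k] n|) (k + 1) := by
    funext k
    simp only [Function.iterate_succ_apply]
  rw [this, tendsto_add_atTop_iff_nat (f := fun k : ℕ => |T^[k] n|) 1]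

theorem inv_div : Inv 1 {n : ℤ | Divergent n} := fun n => div_step n

theorem inv_nondiv : Inv 1 {n : ℤ | ¬ Divergent n} := fun n => not_congr (div_step n)

theorem iter_one (j : ℕ) : T^[j] 1 = 1 ∨ T^[j] 1 = 2 := by
  induction j with
  | zero => left; rfl
  | succ j ih =>
    rw [Function.iterate_succ_apply']
    rcases ih with h | h <;> rw [h]
    · right; decide
    · left; decide

theorem iter_neg_one (j : ℕ) : T^[j] (-1) = -1 := by
  induction j with
  | zero => rfl
  | succ j ih => rw [Function.iterate_succ_apply, show T (-1) = -1 by decide, ih]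

theorem iter_zero (j : ℕ) : T^[j] 0 = 0 := by
  induction j with
  | zero => rfl
  | succ j ih => rw [Function.iterate_succ_apply, show T 0 = 0 by decide, ih]

theorem iter_neg_five (j : ℕ) : T^[j] (-5) = -5 ∨ T^[j] (-5) = -7 ∨ T^[j] (-5) = -10 := by
  induction j with
  | zero => left; rfl
  | succ j ih =>
    rw [Function.iterate_succ_apply']
    rcases ih with h | h | h
    · right; left; rw [h]; decide
    · right; right; rw [h]; decide
    · left; rw [h]; decide

theorem not_div_of_bdd {n B : ℤ} (h : ∀ k, |T^[k] n| ≤ B) : ¬ Divergent n := by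
  intro hd
  obtain ⟨k, hk⟩ := (hd.eventually (eventually_gt_atTop B)).exists
  exact absurd (h k) (not_le.2 hk)

theorem not_div {s : ℤ} (hs : s = 1 ∨ s = -1 ∨ s = 0) : ¬ Divergent s := by
  apply not_div_of_bdd (B := 2)
  intro k
  rcases hs with rfl | rfl | rfl
  · rcases iter_one k with h | h <;> rw [h] <;> norm_num
  · rw [iter_neg_one]; norm_num
  · rw [iter_zero]; norm_num

theorem merge_iff (m n : ℤ) : Merge m n ↔ m ∈ Mg (Td 1) n := Iff.rfl

theorem inv_merge (n : ℤ) : Inv 1 {m : ℤ | Merge m n} := fun x => Mg_inv 1 n x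

theorem merge_div {m n : ℤ} (h : Merge m n) (hn : Divergent n) : Divergent m := by
  obtain ⟨i, j, hij⟩ := h
  have h1 : T^[j] n ∈ {n : ℤ | Divergent n} := (inv_div.iter j n).1 hn
  rw [← hij] at h1
  exact (inv_div.iter i m).2 h1

theorem many' {S : Set ℤ} (hS : Inv 1 S) {s : ℤ} (hs : s = 1 ∨ s = -1) (h1 : ∃ x ∈ S, 0 < s * x)
    (h2 : ∃ x, x ∉ S ∧ 0 < s * x) : ManyIsolated s S := many hS hs h1 h2

theorem class_many {s : ℤ} (hs : s = 1 ∨ s = -1) {n₀ : ℤ} (h0 : 0 < s * n₀)
    (h : Divergent n₀ ∨ s = -1) :
    ManyIsolated s {n | Merge n n₀} ∧ ManyIsolated s {n | ¬ Merge n n₀} := by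
  have hself : Merge n₀ n₀ := ⟨0, 0, rfl⟩
  have hout : ∃ q : ℤ, ¬ Merge q n₀ ∧ 0 < s * q := by
    rcases h with h | rfl
    · refine ⟨s, fun hm => not_div (by tauto) (merge_div hm h), ?_⟩
      rcases hs with rfl | rfl <;> norm_num
    · by_contra hcon
      push Not at hcon
      have h1 : Merge (-1) n₀ := by
        by_contra h
        have := hcon _ h
        omega
      have h5 : Merge (-5) n₀ := by
        by_contra h
        have := hcon _ h
        omega
      rw [merge_iff] at h1 h5
      obtain ⟨i, j, hij⟩ : Merge (-1) (-5) := Mg_trans h1 (Mg_symm h5)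
      rw [iter_neg_one] at hij
      rcases iter_neg_five j with h | h | h <;> omega
  obtain ⟨q, hq, hq0⟩ := hout
  exact ⟨many' (inv_merge n₀) hs ⟨n₀, hself, h0⟩ ⟨q, hq, hq0⟩,
    many' (S := {n | ¬ Merge n n₀}) (inv_merge n₀).compl hs ⟨q, hq, hq0⟩
      ⟨n₀, not_not.2 hself, h0⟩⟩

theorem div_many {s : ℤ} (hs : s = 1 ∨ s = -1) (h : ∃ x : ℤ, 0 < s * x ∧ Divergent x) :
    ManyIsolated s {n | Divergent n} ∧ ManyIsolated s {n | ¬ Divergent n} := by
  obtain ⟨x, hx0, hx⟩ := h
  have hs' : ¬ Divergent s := not_div (by tauto)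
  have hss : 0 < s * s := by rcases hs with rfl | rfl <;> norm_num
  exact ⟨many' inv_div hs ⟨x, hx, hx0⟩ ⟨s, hs', hss⟩,
    many' inv_nondiv hs ⟨s, hs', hss⟩ ⟨x, not_not.2 hx, hx0⟩⟩

theorem step (θ : ℝ) (hθ : 0 < θ) (hθ1 : θ < 1 / 2)
    (h : (Summable fun n : ↥(Isolated (radius θ) {n | Divergent n}) =>
        radius θ (n : ℤ).natAbs / ((n : ℤ).natAbs : ℝ)) ∨
      Summable fun n : ↥(Isolated (radius θ) {n | ¬ Divergent n}) =>
        radius θ (n : ℤ).natAbs / ((n : ℤ).natAbs : ℝ)) (x : ℤ) : ¬ Divergent x := by
  refine all_of (G := {n : ℤ | ¬ Divergent n}) inv_nondiv (not_div (by norm_num))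
    (not_div (by norm_num)) (not_div (by norm_num)) hθ hθ1 ?_ x
  rcases h with h | h
  · left
    have e : ({n : ℤ | ¬ Divergent n}ᶜ : Set ℤ) = {n | Divergent n} := by
      ext n; simp
    rw [e]
    exact h
  · right
    exact h

theorem rule24' (θ : ℝ) (h : ∀ᶠ n : ℤ in cofinite, n % 2 = 1 →
      (∀ m : ℤ, m % 2 = 0 → |(m : ℝ) - n| ≤ radius θ n.natAbs → ¬ Divergent m) → ¬ Divergent n) :
    Summable fun n : ↥(Isolated (radius θ) {n | Divergent n}) =>
      radius θ (n : ℤ).natAbs / ((n : ℤ).natAbs : ℝ) := by
  have e : ({n : ℤ | ¬ Divergent n}ᶜ : Set ℤ) = {n | Divergent n} := by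
    ext n; simp
  have h1 := rule24 (w := radius θ) (G := {n : ℤ | ¬ Divergent n}) h
  rw [e] at h1
  exact fin_is h1 fun n => radius θ n / (n : ℝ)

theorem rule35' (θ : ℝ) (h : ∀ᶠ n : ℤ in cofinite, n % 2 = 1 → ¬ Divergent n →
      ∃ m : ℤ, m % 2 = 0 ∧ |(m : ℝ) - n| ≤ radius θ n.natAbs ∧ ¬ Divergent m) :
    Summable fun n : ↥(Isolated (radius θ) {n | ¬ Divergent n}) =>
      radius θ (n : ℤ).natAbs / ((n : ℤ).natAbs : ℝ) :=
  fin_is (rule35 (w := radius θ) (G := {n : ℤ | ¬ Divergent n}) h) fun n => radius θ n / (n : ℝ)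

/-- (1) Let `s = 1` or `s = -1`, and suppose that some integer of sign `s` has a divergent trajectory.
For every `M`, the odd `n` of sign `s` with a divergent trajectory, such that no even integer at a
distance of at most `M` from `n` has a divergent trajectory, have a divergent sum of the `1 / |n|`. For
`0 < θ < 1/2` there are infinitely many such `n` for the distance `exp ((log |n|) ^ θ)`, and the sum
of the `exp ((log |n|) ^ θ) / |n|` over them diverges. The same is true for the integers
without a divergent trajectory in place of those with a divergent trajectory.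

(2) For every integer `n₀` of sign `s` with a divergent trajectory, and for every negative `n₀`
(`s = -1`), the same is true for the set of the integers whose trajectory merges with that of `n₀`,
and for its complement.

(3) Let `0 < θ < 1/2`. The following are equivalent: (i) no integer has a divergent trajectory; (ii) for
all but finitely many odd `n`, if no even integer at a distance of at most `exp ((log |n|) ^ θ)` from
`n` has a divergent trajectory, neither has `n`; (iii) for all but finitely many odd `n` without a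
divergent trajectory some even integer at a distance of at most `exp ((log |n|) ^ θ)` from `n` has no
divergent trajectory; (iv) the sum of the `exp ((log |n|) ^ θ) / |n|` over the exceptions to (ii)
converges; (v) the same for (iii). -/
theorem result :
    (∀ s : ℤ, (s = 1 ∨ s = -1) → (∃ x : ℤ, 0 < s * x ∧ Divergent x) →
      ManyIsolated s {n | Divergent n} ∧ ManyIsolated s {n | ¬ Divergent n}) ∧
    (∀ s : ℤ, (s = 1 ∨ s = -1) → ∀ n₀ : ℤ, 0 < s * n₀ → (Divergent n₀ ∨ s = -1) →
      ManyIsolated s {n | Merge n n₀} ∧ ManyIsolated s {n | ¬ Merge n n₀}) ∧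
    ∀ θ : ℝ, 0 < θ → θ < 1 / 2 →
      [∀ n : ℤ, ¬ Divergent n,
        ∀ᶠ n : ℤ in cofinite, n % 2 = 1 →
          (∀ m : ℤ, m % 2 = 0 → |(m : ℝ) - n| ≤ radius θ n.natAbs → ¬ Divergent m) →
          ¬ Divergent n,
        ∀ᶠ n : ℤ in cofinite, n % 2 = 1 → ¬ Divergent n →
          ∃ m : ℤ, m % 2 = 0 ∧ |(m : ℝ) - n| ≤ radius θ n.natAbs ∧ ¬ Divergent m,
        Summable fun n : ↥(Isolated (radius θ) {n | Divergent n}) =>
          radius θ (n : ℤ).natAbs / ((n : ℤ).natAbs : ℝ),
        Summable fun n : ↥(Isolated (radius θ) {n | ¬ Divergent n}) =>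
          radius θ (n : ℤ).natAbs / ((n : ℤ).natAbs : ℝ)].TFAE := by
  refine ⟨fun s hs h => div_many hs h, fun s hs n₀ h0 h => class_many hs h0 h, ?_⟩
  intro θ hθ hθ1
  tfae_have 1 → 2 := fun h => Eventually.of_forall fun n _ _ => h n
  tfae_have 1 → 3 := fun h => Eventually.of_forall fun n hn _ =>
    ⟨n + 1, by omega, far1 n, h _⟩
  tfae_have 2 → 4 := rule24' θ
  tfae_have 3 → 5 := rule35' θ
  tfae_have 4 → 1 := fun h => step θ hθ hθ1 (Or.inl h)
  tfae_have 5 → 1 := fun h => step θ hθ hθ1 (Or.inr h)
  tfae_finish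

end Pool.Agent.Results.MP_ff4775_nt.IsolatedTrajectories
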