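import Mathlib
import Pool.Agent.H499R2.NDClass2
import Pool.Agent.Run7.h145.QL.Y5

set_option autoImplicit false

/-!
Sets invariant under the Collatz map, and divergent trajectories, along the values of quadratic
polynomials in several variables.

The values (for example the sums of two squares) have density zero or large multiplicities; all statements
count the points of a box at which the value is in the set.
-/

namespace Pool.Agent.Results.MP_ff4775_nt.QuadraticValues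

open Filter Topology Finset

/-- The accelerated Collatz map on the integers. -/
def T (x : ℤ) : ℤ := if x % 2 = 0 then x / 2 else (3 * x + 1) / 2

/-- The trajectory of `x` is divergent. -/
def Divergent (x : ℤ) : Prop := Tendsto (fun k : ℕ => |T^[k] x|) atTop atTop

/-- `S` is invariant under the map `T` and its inverse. -/
def Invariant (S : Set ℤ) : Prop := ∀ x : ℤ, x ∈ S ↔ T x ∈ S

/-- Among the integers of sign `s` the set `S` has natural density `δ`. -/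
def HasDensity (s : ℤ) (S : Set ℤ) (δ : ℝ) : Prop :=
  Tendsto (fun N : ℕ => ({n : ℤ | 0 < s * n ∧ s * n ≤ N ∧ n ∈ S}.ncard : ℝ) / N) atTop (𝓝 δ)

/-- The value at `x` of the quadratic polynomial with quadratic part `∑ A i j x i x j`, linear part
`∑ l i x i` and constant term `c`. -/
def Val {k : ℕ} (A : Fin k → Fin k → ℤ) (l : Fin k → ℤ) (c : ℤ) (x : Fin k → ℤ) : ℤ :=
  ∑ i, ∑ j, A i j * x i * x j + ∑ i, l i * x i + c

/-- The quadratic form `∑ A i j x i x j` has rank at least two: the symmetric matrix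
`A i j + A j i` has a minor of order two that is not zero. -/
def RankTwo {k : ℕ} (A : Fin k → Fin k → ℤ) : Prop :=
  ∃ p q r s : Fin k, (A p r + A r p) * (A q s + A s q) ≠ (A p s + A s p) * (A q r + A r q)

/-- The integral points `x` of the box `a i < x i ≤ b i` with `x ∈ D` at which the polynomial has a value of
sign `s` with `u < value ≤ v`. -/
def Points {k : ℕ} (s : ℤ) (A : Fin k → Fin k → ℤ) (l : Fin k → ℤ) (c : ℤ) (a b : Fin k → ℤ) (u v : ℤ)
    (D : Set (Fin k → ℤ)) : Set (Fin k → ℤ) :=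
  {x | (∀ i, a i < x i ∧ x i ≤ b i) ∧ (u < Val A l c x ∧ Val A l c x ≤ v) ∧ 0 < s * Val A l c x ∧ x ∈ D}

/-- The proportion of the points with a value in `S` among the points of the cube `[-N, N] ^ k` with a
value of sign `s`. -/
noncomputable def Proportion {k : ℕ} (s : ℤ) (A : Fin k → Fin k → ℤ) (l : Fin k → ℤ) (c : ℤ) (S : Set ℤ) (N : ℕ) : ℝ :=
  ({x : Fin k → ℤ | (∀ i, |x i| ≤ N) ∧ 0 < s * Val A l c x ∧ Val A l c x ∈ S}.ncard : ℝ) /
    {x : Fin k → ℤ | (∀ i, |x i| ≤ N) ∧ 0 < s * Val A l c x}.ncard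

open Pool.Agent.H499R2.ND

theorem dinv : Invariant {x | Divergent x} := by
  intro x
  simp only [Set.mem_ofPred_eq]
  unfold Divergent
  rw [← tendsto_add_atTop_iff_nat (f := fun k : ℕ => |T^[k] x|) 1]
  simp only [Function.iterate_succ_apply]

theorem HD_of {s : ℤ} (hs : s = 1 ∨ s = -1) {S : Set ℤ} (hS : Invariant S) {δ : ℝ}
    (h : HasDensity s S δ) : HD s S δ ∧ 0 ≤ δ ∧ δ ≤ 1 := by
  obtain ⟨δ', h1, h2, hδ'⟩ := dens_side odd_one isCoprime_one_left hs (S := S) hS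
  have h3 : HasDensity s S δ' := HD_ncard hs hδ'
  rw [tendsto_nhds_unique h h3]
  exact ⟨hδ', h1, h2⟩

/-- the uniform theorem -/
theorem uniform {s : ℤ} (hs : s = 1 ∨ s = -1) {k : ℕ} {A : Fin k → Fin k → ℤ} (hA : RankTwo A) {B ε : ℝ}
    (hB : 0 < B) (hε : 0 < ε) {q : ℕ} (hq : 1 ≤ q) : ∃ R₀ : ℕ, ∀ (S : Set ℤ) (δ : ℝ), Invariant S → HasDensity s S δ →
      ∀ R : ℕ, R₀ ≤ R → ∀ (l : Fin k → ℤ) (c : ℤ) (a b : Fin k → ℤ),
      (∀ i, |(l i : ℝ)| ≤ B * R) → |(c : ℝ)| ≤ B * R ^ 2 → (∀ i, |a i| ≤ R ∧ |b i| ≤ R) →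
      ∀ (u v : ℤ) (D : Set (Fin k → ℤ)), (∀ x y : Fin k → ℤ, (∀ i, x i ≡ y i [ZMOD q]) → (x ∈ D ↔ y ∈ D)) →
      |({x ∈ Points s A l c a b u v D | Val A l c x ∈ S}.ncard : ℝ) - δ * (Points s A l c a b u v D).ncard| ≤
        ε * R ^ k := by
  obtain ⟨R₀, h⟩ := Pool.Agent.Run7.h145.QL.X.unif_S hs hA hB hε hq
  exact ⟨R₀, fun S δ hS hδ => h S δ hS (HD_of hs hS hδ).1 (HD_of hs hS hδ).2⟩

theorem freq {s : ℤ} (hs : s = 1 ∨ s = -1) {S : Set ℤ} {δ : ℝ} (hS : Invariant S) (hδ : HasDensity s S δ) :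
    Pool.Agent.Run7.h145.QL.X.FrequencyS s S δ := by
  intro k A hA B ε q hB hε hq
  obtain ⟨R₀, h⟩ := uniform hs hA hB hε hq
  exact ⟨R₀, h S δ hS hδ⟩

theorem dens_pos {s : ℤ} (hs : s = 1 ∨ s = -1) {S : Set ℤ} (hS : Invariant S) {x₀ : ℤ} (hx : x₀ ∈ S)
    (h0 : 0 < s * x₀) : ∃ δ : ℝ, 0 < δ ∧ HasDensity s S δ := by
  obtain ⟨δ, _, _, hδ⟩ := dens_side odd_one isCoprime_one_left hs (S := S) hS
  exact ⟨δ, Pool.Agent.H499R2.ND.one_pos hs hS hx h0 hδ, HD_ncard hs hδ⟩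

/-- Let `s = 1` or `s = -1`. (A set of integers invariant under `T` and its inverse has a natural density
among the integers of sign `s`.)
(1) THE UNIFORM THEOREM. Let `A` be an integral quadratic form of rank at least two in `k` variables, `B > 0`,
`ε > 0` and `q ≥ 1`. There is `R₀` such that for all invariant sets `S` (`δ` their density), all `R ≥ R₀`, all
polynomials with quadratic part `A`, linear coefficients at most `B R` and constant term at most `B R ^ 2`,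
all boxes in `[-R, R] ^ k`, all `u`, `v` and all sets `D` of integral points periodic modulo `q`: the number of
the points `x ∈ D` of the box with a value in `S` of sign `s` between `u` and `v` is `δ` times the number of
all points `x ∈ D` of the box with a value of sign `s` between `u` and `v`, up to `ε R ^ k`.
(2) PROPORTIONS. Let `S` be invariant and `δ` its density. For every quadratic polynomial with quadratic part
of rank at least two that takes a value of sign `s` (for `s = 1` for example `x y`, `x ^ 2 + y ^ 2 + z ^ 2` or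
the determinant `x t - y z`), the value is in `S` at the proportion `δ` of the points of the cubes
`[-N, N] ^ k` at which it has sign `s`. The same is true for `s (x ^ 2 + y ^ 2)` and the points with
`0 < x ^ 2 + y ^ 2 ≤ N`, and for `s x y` and the pairs `1 ≤ x, y ≤ N`.
(3) DIVERGENCE. If one integer of sign `s` has a divergent trajectory, then for each polynomial as in (2)
the divergent trajectories have the same positive proportion `δ`, their density among all integers of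
sign `s`; and for `β ^ 2 ≠ 4 α γ` every large `n` has at least `κ n` representations
`s n = α x ^ 2 + β x y + γ y ^ 2 + t` with positive `x`, `y` at most `√n` and `t` of sign `s` with a divergent
trajectory.
(4) So if for one polynomial as in (2) (even for a sequence of `N` only) the trajectory of the value is not
divergent at almost all points, then no integer of sign `s` has a divergent trajectory. -/
theorem result (s : ℤ) (hs : s = 1 ∨ s = -1) :
    (∀ (k : ℕ) (A : Fin k → Fin k → ℤ), RankTwo A → ∀ (B ε : ℝ) (q : ℕ), 0 < B → 0 < ε → 1 ≤ q → ∃ R₀ : ℕ,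
      ∀ (S : Set ℤ) (δ : ℝ), Invariant S → HasDensity s S δ →
      ∀ R : ℕ, R₀ ≤ R → ∀ (l : Fin k → ℤ) (c : ℤ) (a b : Fin k → ℤ),
      (∀ i, |(l i : ℝ)| ≤ B * R) → |(c : ℝ)| ≤ B * R ^ 2 → (∀ i, |a i| ≤ R ∧ |b i| ≤ R) →
      ∀ (u v : ℤ) (D : Set (Fin k → ℤ)), (∀ x y : Fin k → ℤ, (∀ i, x i ≡ y i [ZMOD q]) → (x ∈ D ↔ y ∈ D)) →
      |({x ∈ Points s A l c a b u v D | Val A l c x ∈ S}.ncard : ℝ) - δ * (Points s A l c a b u v D).ncard| ≤
        ε * R ^ k) ∧
    (∀ (S : Set ℤ) (δ : ℝ), Invariant S → HasDensity s S δ →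
      (∀ (k : ℕ) (A : Fin k → Fin k → ℤ), RankTwo A → ∀ (l : Fin k → ℤ) (c : ℤ) (x₀ : Fin k → ℤ),
        0 < s * ∑ i, ∑ j, A i j * x₀ i * x₀ j → Tendsto (Proportion s A l c S) atTop (𝓝 δ)) ∧
      Tendsto (fun N : ℕ => ({p : ℤ × ℤ | 0 < p.1 ^ 2 + p.2 ^ 2 ∧ p.1 ^ 2 + p.2 ^ 2 ≤ N ∧
        s * (p.1 ^ 2 + p.2 ^ 2) ∈ S}.ncard : ℝ) /
        {p : ℤ × ℤ | 0 < p.1 ^ 2 + p.2 ^ 2 ∧ p.1 ^ 2 + p.2 ^ 2 ≤ N}.ncard) atTop (𝓝 δ) ∧
      Tendsto (fun N : ℕ => ({p : ℕ × ℕ | 1 ≤ p.1 ∧ 1 ≤ p.2 ∧ p.1 ≤ N ∧ p.2 ≤ N ∧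
        s * ((p.1 : ℤ) * (p.2 : ℤ)) ∈ S}.ncard : ℝ) / N ^ 2) atTop (𝓝 δ)) ∧
    ((∃ x : ℤ, 0 < s * x ∧ Divergent x) → ∃ δ : ℝ, 0 < δ ∧ HasDensity s {x | Divergent x} δ ∧
      (∀ (k : ℕ) (A : Fin k → Fin k → ℤ), RankTwo A → ∀ (l : Fin k → ℤ) (c : ℤ) (x₀ : Fin k → ℤ),
        0 < s * ∑ i, ∑ j, A i j * x₀ i * x₀ j → Tendsto (Proportion s A l c {x | Divergent x}) atTop (𝓝 δ)) ∧
      ∀ α β γ : ℤ, β ^ 2 ≠ 4 * α * γ → ∃ κ : ℝ, 0 < κ ∧ ∃ n₀ : ℕ, ∀ n : ℕ, n₀ ≤ n →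
        κ * n ≤ {p : ℤ × ℤ | (0 < p.1 ∧ p.1 ^ 2 ≤ n) ∧ (0 < p.2 ∧ p.2 ^ 2 ≤ n) ∧
          ∃ t : ℤ, Divergent t ∧ 0 < s * t ∧
            s * n = (α * p.1 ^ 2 + β * p.1 * p.2 + γ * p.2 ^ 2) + t}.ncard) ∧
    (∀ (k : ℕ) (A : Fin k → Fin k → ℤ), RankTwo A → ∀ (l : Fin k → ℤ) (c : ℤ) (x₀ : Fin k → ℤ),
      0 < s * ∑ i, ∑ j, A i j * x₀ i * x₀ j → ∀ N : ℕ → ℕ, Tendsto N atTop atTop →
      Tendsto (fun i => Proportion s A l c {x | Divergent x} (N i)) atTop (𝓝 0) →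
      ∀ x : ℤ, 0 < s * x → ¬ Divergent x) := by
  refine ⟨fun k A hA B ε q hB hε hq => uniform hs hA hB hε hq, fun S δ hS hδ => ⟨fun k A hA l c x₀ h0 => ?_, ?_, ?_⟩,
    ?_, fun k A hA l c x₀ h0 N hN h x hx hd => ?_⟩
  · exact Pool.Agent.Run7.h145.QL.X.cubes_S hs (freq hs hS hδ) hA l c h0
  · exact Pool.Agent.Run7.h145.QL.X.two_squares_S hs (freq hs hS hδ)
  · exact Pool.Agent.Run7.h145.QL.X.products_S hs (freq hs hS hδ)
  · rintro ⟨x, hx, hd⟩
    obtain ⟨δ, hδ0, hδ⟩ := dens_pos hs dinv hd hx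
    refine ⟨δ, hδ0, hδ, fun k A hA l c x₀ h0 => ?_, fun α β γ hdisc => ?_⟩
    · exact Pool.Agent.Run7.h145.QL.X.cubes_S hs (freq hs dinv hδ) hA l c h0
    · exact Pool.Agent.Run7.h145.QL.X.represent_S hs hδ0 (freq hs dinv hδ) hdisc
  · obtain ⟨δ, hδ0, hδ⟩ := dens_pos hs dinv hd hx
    have h1 : Tendsto (Proportion s A l c {x | Divergent x}) atTop (𝓝 δ) :=
      Pool.Agent.Run7.h145.QL.X.cubes_S hs (freq hs dinv hδ) hA l c h0
    have h2 := tendsto_nhds_unique (h1.comp hN) h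
    linarith

end Pool.Agent.Results.MP_ff4775_nt.QuadraticValues
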